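import Pool.Agent.X246.COL.Sound
import Pool.Agent.H670R2.ERMem

/-!
# Collinearity logic with collinear groups of size at most three is `∃ℝ`-complete

This answers Q1 of MP_8c8e41_lc affirmatively, with `k = 3`.

A system of constraints `x = 1`, `x + y = z`, `x * y = z` over the reals is first turned into a
linear hypergraph with hyperedges of size at most three (every collinearity constraint of a von
Staudt type construction is replaced by the eight other lines of a Pappus configuration through six
private points; this construction is taken from the library `H621R2`). The hyperedges are the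
groups. The theorem of Pappus is valid in all degenerate positions as long as the points are
distinct, and the distinctness of all the points is expressed by negative atoms
`¬ COL(a, b, c)`, where `c` is one additional point. One further negative atom says that the three
basic points are not collinear.
-/

set_option autoImplicit false

namespace Pool.Agent.Results.MP_8c8e41_lc.GroupsOfThree

open Pool.Agent.NPC Pool.Agent.NPC.ER

/-- `COL(p, q, r)`: the points `p`, `q`, `r` of the plane lie on a common line. -/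
def COL (p q r : ℝ × ℝ) : Prop := Collinear ℝ ({p, q, r} : Set (ℝ × ℝ))

/-- The inputs: a list of groups, every one of them given by a list of its variables (which are
natural numbers), and a list of triples `(a, b, c)`, standing for the negative atoms
`¬ COL(a, b, c)`. The order of the lists and repetitions in them are irrelevant. -/
abbrev Inst : Type := List (List ℕ) × List (ℕ × ℕ × ℕ)

/-- The set of the groups. -/
def groups (I : Inst) : Finset (Finset ℕ) := (I.1.map List.toFinset).toFinset

/-- Any two distinct groups share at most one variable, and every group has at most `k`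
variables. -/
def IsInstance (k : ℕ) (I : Inst) : Prop :=
  (∀ G ∈ groups I, ∀ H ∈ groups I, G ≠ H → (G ∩ H).card ≤ 1) ∧ ∀ G ∈ groups I, G.card ≤ k

/-- The variables can be assigned points of the plane so that all positive atoms `COL(a, b, c)`,
for `a, b, c` in a common group, and all negative atoms hold. -/
def Yes (I : Inst) : Prop :=
  ∃ p : ℕ → ℝ × ℝ,
    (∀ G ∈ groups I, ∀ a ∈ G, ∀ b ∈ G, ∀ c ∈ G, COL (p a) (p b) (p c)) ∧
    ∀ t ∈ I.2, ¬ COL (p t.1) (p t.2.1) (p t.2.2)

/-- The decision problem `COL_k`: the input is an instance with groups in which every group has at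
most `k` variables, and it is a yes-instance. -/
def COLk (k : ℕ) (I : Inst) : Prop := IsInstance k I ∧ Yes I

theorem mem_groups {I : Inst} {G : Finset ℕ} : G ∈ groups I ↔ ∃ l ∈ I.1, l.toFinset = G := by
  simp [groups]

theorem COL_iff (p q r : ℝ × ℝ) : COL p q r ↔ H621R2.Col p q r := by
  unfold COL
  constructor
  · intro h
    rw [collinear_iff_of_mem (p₀ := p) (by simp)] at h
    obtain ⟨v, hv⟩ := h
    obtain ⟨s, hs⟩ := hv q (by simp)
    obtain ⟨t, ht⟩ := hv r (by simp)
    simp only [vadd_eq_add] at hs ht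
    rw [hs, ht]
    simp only [H621R2.Col, H621R2.cr, Prod.fst_sub, Prod.snd_sub, Prod.fst_add, Prod.snd_add,
      Prod.smul_fst, Prod.smul_snd, smul_eq_mul]
    ring
  · intro h
    by_cases hpq : p = q
    · subst hpq
      rw [Set.insert_eq_of_mem (by simp)]
      exact collinear_pair ℝ p r
    · obtain ⟨s, hs⟩ := H621R2.exists_param_of_col hpq h
      rw [collinear_iff_of_mem (p₀ := p) (by simp)]
      refine ⟨q - p, ?_⟩
      intro x hx
      simp only [Set.mem_insert_iff, Set.mem_singleton_iff] at hx
      simp only [vadd_eq_add]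
      rcases hx with rfl | rfl | rfl
      · exact ⟨0, by simp⟩
      · exact ⟨1, by simp⟩
      · exact ⟨s, by rw [add_comm]; exact hs⟩

/-- The negative atoms of the instance of a system. -/
def negs (L : List ℕ) : List (ℕ × ℕ × ℕ) :=
  (3, 1, 5) :: L.flatMap (fun a => L.flatMap (fun b => if a = b then [] else [(a + 1, b + 1, 0)]))

/-- The instance of a system. -/
def inst (S : List Con) : Inst :=
  ((H621R2.edgesOf S).map (fun e => e.map (fun v => v + 1)), negs (H621R2.edgesOf S).flatten)

theorem mem_negs {L : List ℕ} {t : ℕ × ℕ × ℕ} : t ∈ negs L ↔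
    t = (3, 1, 5) ∨ ∃ a ∈ L, ∃ b ∈ L, a ≠ b ∧ t = (a + 1, b + 1, 0) := by
  unfold negs
  simp only [List.mem_cons, List.mem_flatMap]
  constructor
  · rintro (h | ⟨a, ha, b, hb, h⟩)
    · exact Or.inl h
    · by_cases hab : a = b
      · simp [hab] at h
      · simp only [hab, if_false, List.mem_cons, List.not_mem_nil, or_false] at h
        exact Or.inr ⟨a, ha, b, hb, hab, h⟩
  · rintro (h | ⟨a, ha, b, hb, hab, h⟩)
    · exact Or.inl h
    · exact Or.inr ⟨a, ha, b, hb, by simp [hab, h]⟩

theorem prs_ne : ∀ u ∈ H621R2.prs, u.1 ≠ u.2 := by decide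

theorem toFinset_map_succ (l : List ℕ) :
    (l.map (fun v => v + 1)).toFinset = l.toFinset.image (fun v => v + 1) := by
  ext v; simp

theorem succ_inj' : Function.Injective (fun v : ℕ => v + 1) := fun a b h => by simpa using h

theorem inst_ok (S : List Con) (k : ℕ) (hk : 3 ≤ k) : IsInstance k (inst S) := by
  constructor
  · intro G hG H hH hne
    rw [mem_groups] at hG hH
    obtain ⟨l, hl, rfl⟩ := hG
    obtain ⟨m, hm, rfl⟩ := hH
    simp only [inst, List.mem_map] at hl hm
    obtain ⟨e, he, rfl⟩ := hl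
    obtain ⟨f, hf, rfl⟩ := hm
    rw [toFinset_map_succ, toFinset_map_succ] at hne ⊢
    rw [← Finset.image_inter _ _ succ_inj', Finset.card_image_of_injective _ succ_inj']
    exact H621R2.hyp_lin (fun u hu => H621R2.trip_distinct hu) he hf (fun h => hne (by rw [h]))
  · intro G hG
    rw [mem_groups] at hG
    obtain ⟨l, hl, rfl⟩ := hG
    simp only [inst, List.mem_map] at hl
    obtain ⟨e, he, rfl⟩ := hl
    rw [toFinset_map_succ, Finset.card_image_of_injective _ succ_inj']
    exact (H621R2.hyp_card prs_ne (fun u hu => H621R2.trip_distinct hu) he).2.trans hk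

theorem sound (S : List Con) (h : Yes (inst S)) : Sat S := by
  obtain ⟨p, h1, h2⟩ := h
  have hinj : Set.InjOn (fun v => p (v + 1)) (H621R2.vs (H621R2.edgesOf S)) := by
    intro a ha b hb hab
    by_contra hne
    apply h2 (a + 1, b + 1, 0) (mem_negs.2 (Or.inr ⟨a, ha, b, hb, hne, rfl⟩))
    simp only at hab ⊢
    rw [COL_iff, hab]
    simp [H621R2.Col, H621R2.cr]
  have hcol : ∀ v1 v2 v3 : ℕ, [v1, v2, v3] ∈ H621R2.edgesOf S →
      H621R2.Col (p (v1 + 1)) (p (v2 + 1)) (p (v3 + 1)) := by
    intro v1 v2 v3 he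
    rw [← COL_iff]
    refine h1 ([v1, v2, v3].map (fun v => v + 1)).toFinset
      (mem_groups.2 ⟨_, List.mem_map.2 ⟨_, he, rfl⟩, rfl⟩) _ ?_ _ ?_ _ ?_ <;> simp
  have hD : H621R2.cr (p (0 + 1) - p (2 + 1)) (p (4 + 1) - p (2 + 1)) ≠ 0 := by
    intro hc
    apply h2 (3, 1, 5) (mem_negs.2 (Or.inl rfl))
    rw [COL_iff]
    exact hc
  obtain ⟨fin, val, f0, v0, f2, v2, h⟩ := X246.COL.hyp_sound' (p := fun v => p (v + 1)) hinj hcol hD
  exact H621R2.gatesOf_sound f0 v0 f2 v2 h

theorem complete (S : List Con) (h : Sat S) : Yes (inst S) := by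
  obtain ⟨p, hp⟩ := (H621R2.edgesOf_correct S).1 h
  have hD := X246.COL.R3.noncol (H621R2.hyp_sound hp)
  -- a generic point
  have hgen : ∃ t : ℝ, ∀ a ∈ (H621R2.edgesOf S).flatten.toFinset,
      ∀ b ∈ (H621R2.edgesOf S).flatten.toFinset, a ≠ b →
      H621R2.cr ((t, t ^ 2) - p a) (p b - p a) ≠ 0 := by
    have : ∀ᶠ t : ℝ in Filter.cofinite, ∀ a ∈ (H621R2.edgesOf S).flatten.toFinset,
        ∀ b ∈ (H621R2.edgesOf S).flatten.toFinset, a ≠ b →
        H621R2.cr ((t, t ^ 2) - p a) (p b - p a) ≠ 0 := by
      rw [Filter.eventually_all_finset]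
      intro a ha
      rw [Filter.eventually_all_finset]
      intro b hb
      by_cases hab : a = b
      · exact Filter.Eventually.of_forall (fun t h => absurd hab h)
      · have hd : p b - p a ≠ 0 := sub_ne_zero.2 (fun h => hab
          (hp.1 (List.mem_toFinset.1 ha) (List.mem_toFinset.1 hb) h.symm))
        filter_upwards [H621R2.cr_gen (p a) (p b - p a) hd] with t ht _
        exact ht
    exact this.exists
  obtain ⟨t, ht⟩ := hgen
  refine ⟨fun v => if v = 0 then (t, t ^ 2) else p (v - 1), ?_, ?_⟩
  · intro G hG a ha b hb c hc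
    rw [mem_groups] at hG
    obtain ⟨l, hl, rfl⟩ := hG
    simp only [inst, List.mem_map] at hl
    obtain ⟨e, he, rfl⟩ := hl
    simp only [List.mem_toFinset, List.mem_map] at ha hb hc
    obtain ⟨a, ha, rfl⟩ := ha
    obtain ⟨b, hb, rfl⟩ := hb
    obtain ⟨c, hc, rfl⟩ := hc
    simp only [Nat.add_eq_zero_iff, one_ne_zero, and_false, if_false, Nat.add_sub_cancel]
    rw [COL_iff]
    obtain ⟨u, v, huv⟩ := hp.2 e he
    have hm : ∀ x ∈ e, x ∈ H621R2.vs (H621R2.edgesOf S) := fun x hx => H621R2.mem_vs he hx
    exact H621R2.col_of_mem_segment ((huv a (hm a ha)).2 ha) ((huv b (hm b hb)).2 hb)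
      ((huv c (hm c hc)).2 hc)
  · intro u hu
    rcases mem_negs.1 hu with rfl | ⟨a, ha, b, hb, hab, rfl⟩
    · intro hc
      rw [COL_iff] at hc
      exact hD hc
    · intro hc
      rw [COL_iff] at hc
      apply ht a (List.mem_toFinset.2 ha) b (List.mem_toFinset.2 hb) hab
      simp only [Nat.add_eq_zero_iff, one_ne_zero, and_false, if_false, Nat.add_sub_cancel,
        if_true] at hc
      simp only [H621R2.Col, H621R2.cr, Prod.fst_sub, Prod.snd_sub] at hc ⊢
      linarith

theorem sat_iff (S : List Con) (k : ℕ) (hk : 3 ≤ k) : Sat S ↔ COLk k (inst S) :=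
  ⟨fun h => ⟨inst_ok S k hk, complete S h⟩, fun h => sound S h.2⟩

/-! ### Membership -/

open Pool.Agent.NPC.H670R2

/-- The two coordinates of the point of a variable. -/
def tx (a : ℕ) : Tm := Tm.var (2 * a)

/-- The second coordinate. -/
def ty (a : ℕ) : Tm := Tm.var (2 * a + 1)

/-- difference of terms -/
def tsub (s t : Tm) : Tm := Tm.add s (Tm.neg t)

/-- The formula `COL(a, b, c)`. -/
def colFm (a b c : ℕ) : Fm :=
  Fm.eq (Tm.mul (tsub (tx b) (tx a)) (tsub (ty c) (ty a)))
    (Tm.mul (tsub (ty b) (ty a)) (tsub (tx c) (tx a)))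

/-- First occurrences of the elements of a list. -/
def firsts (G : List ℕ) : List ℕ :=
  (List.range G.length).filter fun i =>
    !((List.range G.length).any fun j => decide (j < i) && decide (G.getD j 0 = G.getD i 0))

theorem firsts_length (G : List ℕ) : (firsts G).length = G.toFinset.card := by
  have hnd : (firsts G).Nodup := List.Nodup.filter _ List.nodup_range
  have hm : ∀ i, i ∈ firsts G ↔ i < G.length ∧ ∀ j < i, G.getD j 0 ≠ G.getD i 0 := by
    intro i
    simp only [firsts, List.mem_filter, List.mem_range, Bool.not_eq_true', List.any_eq_false,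
      Bool.and_eq_true, decide_eq_true_eq, not_and]
    constructor
    · rintro ⟨h1, h2⟩
      exact ⟨h1, fun j hj => h2 j (hj.trans h1) hj⟩
    · rintro ⟨h1, h2⟩
      exact ⟨h1, fun j _ hj => h2 j hj⟩
  rw [← List.toFinset_card_of_nodup hnd]
  have himg : G.toFinset = (firsts G).toFinset.image (fun i => G.getD i 0) := by
    ext v
    rw [List.mem_toFinset, Finset.mem_image]
    constructor
    · intro hv
      have hex : ∃ i, i < G.length ∧ G.getD i 0 = v := by
        obtain ⟨i, hi, h⟩ := List.getElem_of_mem hv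
        exact ⟨i, hi, by rw [List.getD_eq_getElem _ _ hi]; exact h⟩
      classical
      refine ⟨Nat.find hex, ?_, (Nat.find_spec hex).2⟩
      rw [List.mem_toFinset, hm]
      refine ⟨(Nat.find_spec hex).1, fun j hj h => ?_⟩
      exact Nat.find_min hex hj ⟨hj.trans (Nat.find_spec hex).1,
        h.trans (Nat.find_spec hex).2⟩
    · rintro ⟨i, hi, rfl⟩
      rw [List.mem_toFinset, hm] at hi
      rw [List.getD_eq_getElem _ _ hi.1]
      exact List.getElem_mem _
  rw [himg, Finset.card_image_of_injOn]
  intro i hi j hj hij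
  simp only [Finset.mem_coe, List.mem_toFinset, hm] at hi hj
  simp only at hij
  rcases lt_trichotomy i j with h | h | h
  · exact absurd hij (hj.2 i h)
  · exact h
  · exact absurd hij.symm (hi.2 j h)

/-- The test for the first half of `IsInstance`. -/
def test1 (G H : List ℕ) : Bool :=
  G.all fun a => G.all fun b =>
    decide (a = b) || !(decide (a ∈ H) && decide (b ∈ H)) ||
      ((G.all fun c => decide (c ∈ H)) && (H.all fun c => decide (c ∈ G)))

/-- The test for `IsInstance`. -/
def test (k : ℕ) (I : Inst) : Bool :=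
  (I.1.all fun G => I.1.all fun H => test1 G H) &&
  (I.1.all fun G => decide ((firsts G).length ≤ k))

theorem test1_iff (G H : List ℕ) : test1 G H = true ↔
    (G.toFinset ≠ H.toFinset → (G.toFinset ∩ H.toFinset).card ≤ 1) := by
  have heq : ((G.all fun c => decide (c ∈ H)) && (H.all fun c => decide (c ∈ G))) = true ↔
      G.toFinset = H.toFinset := by
    simp only [Bool.and_eq_true, List.all_eq_true, decide_eq_true_eq]
    constructor
    · rintro ⟨h1, h2⟩
      ext v
      rw [List.mem_toFinset, List.mem_toFinset]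
      exact ⟨h1 v, h2 v⟩
    · intro h
      constructor
      · intro v hv
        rw [← List.mem_toFinset, ← h, List.mem_toFinset]
        exact hv
      · intro v hv
        rw [← List.mem_toFinset, h, List.mem_toFinset]
        exact hv
  unfold test1
  rw [List.all_eq_true]
  simp only [List.all_eq_true (p := fun b => _), Bool.or_eq_true, heq, Bool.not_eq_true',
    Bool.and_eq_false_iff, decide_eq_true_eq, decide_eq_false_iff_not]
  rw [Finset.card_le_one]
  simp only [Finset.mem_inter, List.mem_toFinset]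
  constructor
  · intro h hne a ha b hb
    rcases h a ha.1 b hb.1 with (h1 | h1 | h1) | h1
    · exact h1
    · exact absurd ha.2 h1
    · exact absurd hb.2 h1
    · exact absurd h1 hne
  · intro h a ha b hb
    by_cases hne : G.toFinset = H.toFinset
    · exact Or.inr hne
    · left
      by_cases h1 : a ∈ H
      · by_cases h2 : b ∈ H
        · exact Or.inl (h hne a ⟨ha, h1⟩ b ⟨hb, h2⟩)
        · exact Or.inr (Or.inr h2)
      · exact Or.inr (Or.inl h1)

theorem test_iff (k : ℕ) (I : Inst) : test k I = true ↔ IsInstance k I := by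
  unfold test IsInstance
  rw [Bool.and_eq_true, List.all_eq_true, List.all_eq_true]
  constructor
  · rintro ⟨h1, h2⟩
    constructor
    · intro G hG H hH
      rw [mem_groups] at hG hH
      obtain ⟨l, hl, rfl⟩ := hG
      obtain ⟨m, hm, rfl⟩ := hH
      have := h1 l hl
      rw [List.all_eq_true] at this
      exact (test1_iff l m).1 (this m hm)
    · intro G hG
      rw [mem_groups] at hG
      obtain ⟨l, hl, rfl⟩ := hG
      have := h2 l hl
      rw [decide_eq_true_eq, firsts_length] at this
      exact this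
  · rintro ⟨h1, h2⟩
    constructor
    · intro l hl
      rw [List.all_eq_true]
      intro m hm
      exact (test1_iff l m).2 (h1 _ (mem_groups.2 ⟨l, hl, rfl⟩) _ (mem_groups.2 ⟨m, hm, rfl⟩))
    · intro l hl
      rw [decide_eq_true_eq, firsts_length]
      exact h2 _ (mem_groups.2 ⟨l, hl, rfl⟩)

/-- All atoms of an instance. -/
def atoms (I : Inst) : List Fm :=
  (I.1.flatMap fun G => G.flatMap fun a => G.flatMap fun b => G.map fun c => colFm a b c) ++
    I.2.map fun t => Fm.not (colFm t.1 t.2.1 t.2.2)

/-- The formula of an instance. -/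
def formula (k : ℕ) (I : Inst) : Fm := if test k I = true then conj (atoms I) else ff

theorem holds_colFm (x : ℕ → ℝ) (a b c : ℕ) : (colFm a b c).Holds x ↔
    COL (x (2 * a), x (2 * a + 1)) (x (2 * b), x (2 * b + 1)) (x (2 * c), x (2 * c + 1)) := by
  rw [COL_iff]
  simp only [colFm, tsub, tx, ty, Fm.Holds, Tm.eval, H621R2.Col, H621R2.cr, Prod.fst_sub,
    Prod.snd_sub]
  constructor
  · intro h; linarith
  · intro h; linarith

theorem formula_iff (k : ℕ) (I : Inst) : COLk k I ↔ ETR (formula k I) := by
  unfold COLk formula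
  by_cases ht : test k I = true
  · rw [if_pos ht]
    rw [test_iff] at ht
    have key : ∀ x : ℕ → ℝ, (conj (atoms I)).Holds x ↔
        (∀ G ∈ groups I, ∀ a ∈ G, ∀ b ∈ G, ∀ c ∈ G, COL (x (2 * a), x (2 * a + 1))
          (x (2 * b), x (2 * b + 1)) (x (2 * c), x (2 * c + 1))) ∧
        ∀ t ∈ I.2, ¬ COL (x (2 * t.1), x (2 * t.1 + 1)) (x (2 * t.2.1), x (2 * t.2.1 + 1))
          (x (2 * t.2.2), x (2 * t.2.2 + 1)) := by
      intro x
      rw [holds_conj]
      simp only [atoms, List.mem_append, List.mem_flatMap, List.mem_map, mem_groups]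
      constructor
      · intro h
        constructor
        · rintro G ⟨l, hl, rfl⟩ a ha b hb c hc
          rw [List.mem_toFinset] at ha hb hc
          rw [← holds_colFm]
          exact h _ (Or.inl ⟨l, hl, a, ha, b, hb, c, hc, rfl⟩)
        · intro t ht
          rw [← holds_colFm]
          exact h _ (Or.inr ⟨t, ht, rfl⟩)
      · rintro ⟨h1, h2⟩ φ (⟨l, hl, a, ha, b, hb, c, hc, rfl⟩ | ⟨t, ht, rfl⟩)
        · rw [holds_colFm]
          exact h1 _ ⟨l, hl, rfl⟩ a (List.mem_toFinset.2 ha) b (List.mem_toFinset.2 hb) c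
            (List.mem_toFinset.2 hc)
        · change ¬ _
          rw [holds_colFm]
          exact h2 t ht
    constructor
    · rintro ⟨_, p, hp⟩
      refine ⟨fun v => if v % 2 = 0 then (p (v / 2)).1 else (p (v / 2)).2, ?_⟩
      rw [key]
      have e : ∀ a : ℕ, (((if 2 * a % 2 = 0 then (p (2 * a / 2)).1 else (p (2 * a / 2)).2),
          (if (2 * a + 1) % 2 = 0 then (p ((2 * a + 1) / 2)).1 else (p ((2 * a + 1) / 2)).2)) :
          ℝ × ℝ) = p a := by
        intro a
        have h1 : 2 * a % 2 = 0 := by omega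
        have h2 : 2 * a / 2 = a := by omega
        have h3 : (2 * a + 1) % 2 ≠ 0 := by omega
        have h4 : (2 * a + 1) / 2 = a := by omega
        simp only [h1, h2, h3, h4, if_true, if_false]
      simp only [e]
      exact hp
    · rintro ⟨x, hx⟩
      exact ⟨ht, fun a => (x (2 * a), x (2 * a + 1)), (key x).1 hx⟩
  · rw [if_neg ht]
    rw [test_iff] at ht
    constructor
    · rintro ⟨h, _⟩
      exact absurd h ht
    · intro h
      exact absurd h not_etr_ff

end Pool.Agent.Results.MP_8c8e41_lc.GroupsOfThree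

namespace Pool.Agent.NPC.X246COL

open Pool.Agent.NPC Pool.Agent.NPC.ER Pool.Agent.NPC.H670R2
open Pool.Agent.Results.MP_8c8e41_lc.GroupsOfThree

variable {α : Type} [TEnc α]

theorem poly_negs {L : α → List ℕ} (hL : Poly L) : Poly (fun x => negs (L x)) := by
  unfold negs
  refine Poly.cons (Poly.const _) ?_
  refine Poly.flatMap (F := fun (x : α) a => (L x).flatMap
    (fun b => if a = b then [] else [(a + 1, b + 1, 0)])) hL ?_
  refine Poly.flatMap (F := fun (y : α × ℕ) b => if y.2 = b then [] else [(y.2 + 1, b + 1, 0)])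
    (hL.comp (Poly.fst Poly.id)) ?_
  have ha : Poly (fun z : (α × ℕ) × ℕ => z.1.2) := Poly.snd (Poly.fst Poly.id)
  have hb : Poly (fun z : (α × ℕ) × ℕ => z.2) := Poly.snd Poly.id
  exact Poly.ite (Poly.decide_eq ha hb) (Poly.const [])
    (Poly.cons (Poly.pair (Poly.succ ha) (Poly.pair (Poly.succ hb) (Poly.const 0)))
      (Poly.const []))

theorem poly_inst : Poly inst := by
  have h : Poly (fun S : List Con => H621R2.edgesOf S) := H621R2.poly_edgesOf Poly.id
  refine Poly.pair (f := fun S : List Con => (H621R2.edgesOf S).map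
    (fun e => e.map (fun v => v + 1))) (g := fun S => negs (H621R2.edgesOf S).flatten) ?_
    (poly_negs (Poly.flatten h))
  refine Poly.map (F := fun (_ : List Con) e => e.map (fun v => v + 1)) h ?_
  refine Poly.map (F := fun (_ : List Con × List ℕ) v => v + 1) (Poly.snd Poly.id) ?_
  exact Poly.succ (Poly.snd Poly.id)

theorem poly_tx {a : α → ℕ} (ha : Poly a) : Poly (fun x => tx (a x)) :=
  poly_tvar (Poly.mul (Poly.const 2) ha)

theorem poly_ty {a : α → ℕ} (ha : Poly a) : Poly (fun x => ty (a x)) :=
  poly_tvar (Poly.succ (Poly.mul (Poly.const 2) ha))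

theorem poly_tsub {s t : α → Tm} (hs : Poly s) (ht : Poly t) : Poly (fun x => tsub (s x) (t x)) :=
  poly_tadd hs (poly_tneg ht)

theorem poly_colFm {a b c : α → ℕ} (ha : Poly a) (hb : Poly b) (hc : Poly c) :
    Poly (fun x => colFm (a x) (b x) (c x)) :=
  poly_eq (poly_tmul (poly_tsub (poly_tx hb) (poly_tx ha)) (poly_tsub (poly_ty hc) (poly_ty ha)))
    (poly_tmul (poly_tsub (poly_ty hb) (poly_ty ha)) (poly_tsub (poly_tx hc) (poly_tx ha)))

theorem poly_firsts {G : α → List ℕ} (hG : Poly G) : Poly (fun x => firsts (G x)) := by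
  unfold firsts
  refine Poly.filter (p := fun (x : α) i => !((List.range (G x).length).any fun j =>
    decide (j < i) && decide ((G x).getD j 0 = (G x).getD i 0))) (Poly.range_length hG) ?_
  refine Poly.not ?_
  refine Poly.any (p := fun (y : α × ℕ) j => decide (j < y.2) &&
    decide ((G y.1).getD j 0 = (G y.1).getD y.2 0))
    (Poly.range_length (hG.comp (Poly.fst Poly.id))) ?_
  have hi : Poly (fun z : (α × ℕ) × ℕ => z.1.2) := Poly.snd (Poly.fst Poly.id)
  have hj : Poly (fun z : (α × ℕ) × ℕ => z.2) := Poly.snd Poly.id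
  have hG' : Poly (fun z : (α × ℕ) × ℕ => G z.1.1) := hG.comp (Poly.fst (Poly.fst Poly.id))
  exact Poly.and (Poly.decide_lt hj hi) (Poly.decide_eq (Poly.getD hG' hj (Poly.const 0))
    (Poly.getD hG' hi (Poly.const 0)))

theorem poly_test1 {G H : α → List ℕ} (hG : Poly G) (hH : Poly H) :
    Poly (fun x => test1 (G x) (H x)) := by
  unfold test1
  refine Poly.all (p := fun (x : α) a => (G x).all fun b =>
    decide (a = b) || !(decide (a ∈ H x) && decide (b ∈ H x)) ||
      (((G x).all fun c => decide (c ∈ H x)) && ((H x).all fun c => decide (c ∈ G x)))) hG ?_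
  refine Poly.all (p := fun (y : α × ℕ) b =>
    decide (y.2 = b) || !(decide (y.2 ∈ H y.1) && decide (b ∈ H y.1)) ||
      (((G y.1).all fun c => decide (c ∈ H y.1)) && ((H y.1).all fun c => decide (c ∈ G y.1))))
    (hG.comp (Poly.fst Poly.id)) ?_
  have ha : Poly (fun z : (α × ℕ) × ℕ => z.1.2) := Poly.snd (Poly.fst Poly.id)
  have hb : Poly (fun z : (α × ℕ) × ℕ => z.2) := Poly.snd Poly.id
  have hG' : Poly (fun z : (α × ℕ) × ℕ => G z.1.1) := hG.comp (Poly.fst (Poly.fst Poly.id))
  have hH' : Poly (fun z : (α × ℕ) × ℕ => H z.1.1) := hH.comp (Poly.fst (Poly.fst Poly.id))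
  refine Poly.or (Poly.or (Poly.decide_eq ha hb) (Poly.not (Poly.and (Poly.decide_mem ha hH')
    (Poly.decide_mem hb hH')))) (Poly.and ?_ ?_)
  · exact Poly.all (p := fun (z : (α × ℕ) × ℕ) c => decide (c ∈ H z.1.1)) hG'
      (Poly.decide_mem (Poly.snd Poly.id) (hH'.comp (Poly.fst Poly.id)))
  · exact Poly.all (p := fun (z : (α × ℕ) × ℕ) c => decide (c ∈ G z.1.1)) hH'
      (Poly.decide_mem (Poly.snd Poly.id) (hG'.comp (Poly.fst Poly.id)))

theorem poly_test (k : ℕ) : Poly (test k) := by
  have h1 : Poly (fun I : Inst => I.1) := Poly.fst Poly.id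
  refine Poly.and ?_ ?_
  · refine Poly.all (p := fun (I : Inst) G => I.1.all fun H => test1 G H) h1 ?_
    exact Poly.all (p := fun (y : Inst × List ℕ) H => test1 y.2 H) (h1.comp (Poly.fst Poly.id))
      (poly_test1 (Poly.snd (Poly.fst Poly.id)) (Poly.snd Poly.id))
  · exact Poly.all (p := fun (_ : Inst) G => decide ((firsts G).length ≤ k)) h1
      (Poly.decide_le (Poly.length (poly_firsts (Poly.snd Poly.id))) (Poly.const k))

theorem poly_atoms : Poly atoms := by
  have h1 : Poly (fun I : Inst => I.1) := Poly.fst Poly.id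
  have h2 : Poly (fun I : Inst => I.2) := Poly.snd Poly.id
  refine Poly.append ?_ ?_
  · refine Poly.flatMap (F := fun (_ : Inst) G => G.flatMap fun a => G.flatMap fun b =>
      G.map fun c => colFm a b c) h1 ?_
    refine Poly.flatMap (F := fun (y : Inst × List ℕ) a => y.2.flatMap fun b =>
      y.2.map fun c => colFm a b c) (Poly.snd Poly.id) ?_
    refine Poly.flatMap (F := fun (y : (Inst × List ℕ) × ℕ) b =>
      y.1.2.map fun c => colFm y.2 b c) (Poly.snd (Poly.fst Poly.id)) ?_
    refine Poly.map (F := fun (y : ((Inst × List ℕ) × ℕ) × ℕ) c => colFm y.1.2 y.2 c)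
      (Poly.snd (Poly.fst (Poly.fst Poly.id))) ?_
    exact poly_colFm (Poly.snd (Poly.fst (Poly.fst Poly.id))) (Poly.snd (Poly.fst Poly.id))
      (Poly.snd Poly.id)
  · refine Poly.map (F := fun (_ : Inst) t => Fm.not (colFm t.1 t.2.1 t.2.2)) h2 ?_
    have ht : Poly (fun y : Inst × (ℕ × ℕ × ℕ) => y.2) := Poly.snd Poly.id
    exact poly_not (poly_colFm (Poly.fst ht) (Poly.fst (Poly.snd ht)) (Poly.snd (Poly.snd ht)))

theorem poly_formula (k : ℕ) : Poly (formula k) :=
  Poly.ite (Poly.decide_bool (poly_test k)) (poly_conj poly_atoms) (Poly.const ff)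

end Pool.Agent.NPC.X246COL

namespace Pool.Agent.Results.MP_8c8e41_lc.GroupsOfThree

open Pool.Agent.NPC Pool.Agent.NPC.ER

/-- **Main theorem.** For every `k ≥ 3` the problem `COL_k` is `∃ℝ`-complete. -/
theorem result : ∀ k : ℕ, 3 ≤ k → ERComplete (lang (COLk k)) := fun k hk =>
  ⟨H670R2.InER.of_poly (X246COL.poly_formula k) (formula_iff k),
    ERHard.of_sys X246COL.poly_inst (fun S => sat_iff S k hk)⟩

end Pool.Agent.Results.MP_8c8e41_lc.GroupsOfThree
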